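import Mathlib

/-!
# PSPACE and quantified Boolean formulas

* `PSPACE`: the languages decided by a machine (Mathlib's `Turing.FinTM2`, several stacks) which
  halts on every input and whose stacks have polynomial length in every reachable configuration
* `quant Q P v`: quantify the next variables according to `Q` (`true` is `∀`, `false` is `∃`)
* `QTrue Q F`: the truth of the quantified Boolean formula with prefix `Q` and matrix `F` in
  conjunctive normal form
-/

set_option autoImplicit false

namespace Pool.Agent.Lib.PSpace

open Turing

open Classical in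
/-- The class PSPACE. A language `L` of words over `{0, 1}` is in PSPACE if there is a machine which
for every input `w` halts and outputs whether `w` is in `L`, and a polynomial `p` such that all
stacks have length at most `p (|w|)` in every configuration reached on input `w`. -/
def PSPACE : Set (Set (List Bool)) :=
  {L | ∃ (M : TM2Computable (fun w : List Bool => w) Computability.encodeBool
      (fun w => decide (w ∈ L))) (p : Polynomial ℕ),
    ∀ (w : List Bool) (c : M.tm.Cfg),
      StateTransition.Reaches M.tm.step (initList M.tm (w.map M.inputAlphabet.invFun)) c →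
      ∀ k, (c.stk k).length ≤ p.eval w.length}

/-- `quant Q P v`: the variables after the ones in `v` are quantified according to `Q`, where `true`
stands for `∀` and `false` for `∃` -/
def quant : List Bool → (List Bool → Prop) → List Bool → Prop
  | [], P, v => P v
  | true :: Q, P, v => ∀ b, quant Q P (v ++ [b])
  | false :: Q, P, v => ∃ b, quant Q P (v ++ [b])

/-- `v` satisfies the formula `F` in conjunctive normal form; the literal `(i, b)` says that the
`i`-th variable has value `b` -/
def Sat (F : List (List (ℕ × Bool))) (v : List Bool) : Prop :=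
  ∀ C ∈ F, ∃ l ∈ C, v.getD l.1 false = l.2

/-- the truth of the quantified Boolean formula with prefix `Q` and matrix `F` -/
def QTrue (Q : List Bool) (F : List (List (ℕ × Bool))) : Prop := quant Q (Sat F) []

/-! ### Basic facts -/

lemma quant_append (Q₁ Q₂ : List Bool) (P : List Bool → Prop) (v : List Bool) :
    quant (Q₁ ++ Q₂) P v ↔ quant Q₁ (quant Q₂ P) v := by
  induction Q₁ generalizing v with
  | nil => rfl
  | cons q Q₁ ih =>
    cases q with
    | true => exact forall_congr' fun b => ih _
    | false => exact exists_congr fun b => ih _

lemma quant_congr {Q : List Bool} {P P' : List Bool → Prop} {v : List Bool}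
    (h : ∀ l : List Bool, l.length = Q.length → (P (v ++ l) ↔ P' (v ++ l))) :
    quant Q P v ↔ quant Q P' v := by
  induction Q generalizing v with
  | nil => simpa [quant] using h []
  | cons q Q ih =>
    have h' : ∀ b, quant Q P (v ++ [b]) ↔ quant Q P' (v ++ [b]) := fun b => ih fun l hl => by
      have := h (b :: l) (by simp [hl])
      simpa using this
    cases q with
    | true => exact forall_congr' h'
    | false => exact exists_congr h'

lemma quant_replicate (n : ℕ) (P : List Bool → Prop) (v : List Bool) :
    quant (List.replicate n false) P v ↔ ∃ l : List Bool, l.length = n ∧ P (v ++ l) := by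
  induction n generalizing v with
  | zero =>
    constructor
    · intro h; exact ⟨[], rfl, by simpa [quant] using h⟩
    · rintro ⟨l, hl, h⟩
      rw [List.length_eq_zero_iff.1 hl, List.append_nil] at h
      exact h
  | succ n ih =>
    rw [List.replicate_succ]
    constructor
    · rintro ⟨b, h⟩
      obtain ⟨l, hl, h⟩ := (ih _).1 h
      exact ⟨b :: l, by simp [hl], by simpa using h⟩
    · rintro ⟨l, hl, h⟩
      cases l with
      | nil => simp at hl
      | cons b l => exact ⟨b, (ih _).2 ⟨l, by simpa using hl, by simpa using h⟩⟩

/-- a part which does not depend on the quantified variables -/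
lemma quant_and (Q : List Bool) (P P' : List Bool → Prop) (v : List Bool)
    (h : ∀ l : List Bool, P' (v ++ l) ↔ P' v) :
    quant Q (fun v => P' v ∧ P v) v ↔ P' v ∧ quant Q P v := by
  induction Q generalizing v with
  | nil => rfl
  | cons q Q ih =>
    have h' : ∀ b, quant Q (fun v => P' v ∧ P v) (v ++ [b]) ↔ P' v ∧ quant Q P (v ++ [b]) := by
      intro b
      rw [ih (v ++ [b]) fun l => by rw [List.append_assoc, h, h], h]
    cases q with
    | true =>
      constructor
      · intro H
        exact ⟨((h' true).1 (H true)).1, fun b => ((h' b).1 (H b)).2⟩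
      · intro H b
        exact (h' b).2 ⟨H.1, H.2 b⟩
    | false =>
      constructor
      · rintro ⟨b, H⟩
        exact ⟨((h' b).1 H).1, b, ((h' b).1 H).2⟩
      · rintro ⟨H, b, H'⟩
        exact ⟨b, (h' b).2 ⟨H, H'⟩⟩

lemma sat_append (F G : List (List (ℕ × Bool))) (v : List Bool) :
    Sat (F ++ G) v ↔ Sat F v ∧ Sat G v := by
  simp only [Sat, List.mem_append, or_imp, forall_and]

lemma sat_flatMap {α : Type*} (l : List α) (f : α → List (List (ℕ × Bool))) (v : List Bool) :
    Sat (l.flatMap f) v ↔ ∀ a ∈ l, Sat (f a) v := by
  simp only [Sat, List.mem_flatMap]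
  constructor
  · intro h a ha C hC; exact h C ⟨a, ha, hC⟩
  · rintro h C ⟨a, ha, hC⟩; exact h a ha C hC

lemma sat_cons (C : List (ℕ × Bool)) (F : List (List (ℕ × Bool))) (v : List Bool) :
    Sat (C :: F) v ↔ (∃ l ∈ C, v.getD l.1 false = l.2) ∧ Sat F v := by
  simp only [Sat, List.mem_cons, or_imp, forall_and, forall_eq]

lemma sat_nil (v : List Bool) : Sat [] v := by
  simp [Sat]

lemma getD_append_left (v l : List Bool) {n : ℕ} (h : n < v.length) :
    (v ++ l).getD n false = v.getD n false := by
  rw [List.getD_eq_getElem?_getD, List.getD_eq_getElem?_getD, List.getElem?_append_left h]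

lemma getD_append_right (v l : List Bool) (n : ℕ) :
    (v ++ l).getD (v.length + n) false = l.getD n false := by
  rw [List.getD_eq_getElem?_getD, List.getD_eq_getElem?_getD,
    List.getElem?_append_right (Nat.le_add_right _ _), Nat.add_sub_cancel_left]

lemma getD_append_right' (v l : List Bool) {n m : ℕ} (h : v.length + n = m) :
    (v ++ l).getD m false = l.getD n false := by
  subst h; exact getD_append_right v l n

lemma sat_ext {F : List (List (ℕ × Bool))} {v : List Bool}
    (h : ∀ C ∈ F, ∀ l ∈ C, l.1 < v.length) (v' : List Bool) : Sat F (v ++ v') ↔ Sat F v := by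
  refine forall₂_congr fun C hC => ?_
  constructor
  · rintro ⟨l, hl, h'⟩
    exact ⟨l, hl, by rwa [getD_append_left _ _ (h C hC l hl)] at h'⟩
  · rintro ⟨l, hl, h'⟩
    exact ⟨l, hl, by rwa [getD_append_left _ _ (h C hC l hl)]⟩

end Pool.Agent.Lib.PSpace
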