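import Pool.Agent.Lib.CookLevin.TMLocal
import Pool.Agent.Lib.PSpace.Defs

/-!
# A machine with bounded stacks as a finite cellular automaton

* `exists_rule`: the step function of a machine is a local rule on coded rows
* `exists_rows`: a language in `PSPACE` is decided by iterating a local rule on rows of polynomial
  length, `2 ^ W` times where `W` is the number of bits of a row
-/

set_option autoImplicit false

namespace Pool.Agent.Lib.PSpace

open Turing Pool.Agent.Lib.CookLevin

open Classical in
/-- the step function of a machine is a local rule -/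
theorem exists_rule (tm : FinTM2) : ∃ (Sy : Set (Σ k, tm.Γ k)) (K c : ℕ)
    (δ : ℕ → List ℕ → ℕ) (code : Option tm.Λ × tm.σ × (∀ k, Option (tm.Γ k)) → ℕ),
    (∀ a : tm.Γ tm.k₀, (⟨tm.k₀, a⟩ : Σ k, tm.Γ k) ∈ Sy) ∧
    (∀ cfg : TM2.Cfg tm.Γ tm.Λ tm.σ, Good Sy cfg.stk → Good Sy (stepT tm.m cfg).stk) ∧
    (∀ x ∈ goodCell (Λ := tm.Λ) (σ := tm.σ) Sy, code x < K) ∧
    Set.InjOn code (goodCell (Λ := tm.Λ) (σ := tm.σ) Sy) ∧ (∀ m w, δ m w < K) ∧
    ∀ cfg : TM2.Cfg tm.Γ tm.Λ tm.σ, Good Sy cfg.stk → ∀ i,
      code (rowOf (stepT tm.m cfg) i) =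
        δ (min i c) ((posL c i).map fun j => code (rowOf cfg j)) := by
  have : Fintype tm.K := tm.kFin
  have : Fintype tm.Λ := tm.ΛFin
  have : Fintype tm.σ := tm.σFin
  have : Fintype (tm.Γ tm.k₀) := tm.Γk₀Fin
  let Sy : Set (Σ k, tm.Γ k) :=
    Set.range (fun a : tm.Γ tm.k₀ => (⟨tm.k₀, a⟩ : Σ k, tm.Γ k)) ∪ ⋃ l, pushes (tm.m l)
  have hSy : Sy.Finite := (Set.finite_range _).union (Set.finite_iUnion fun l => pushes_finite _)
  have hpush : ∀ l, pushes (tm.m l) ⊆ Sy :=
    fun l x hx => Or.inr (Set.mem_iUnion.2 ⟨l, hx⟩)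
  let c : ℕ := Finset.univ.sup fun l => depth (tm.m l)
  have hc : ∀ l, depth (tm.m l) ≤ c := fun l =>
    Finset.le_sup (f := fun l => depth (tm.m l)) (Finset.mem_univ l)
  let GA : Set (Option tm.Λ × tm.σ × (∀ k, Option (tm.Γ k))) := goodCell Sy
  have hGA : GA.Finite := goodCell_finite hSy
  have : Finite GA := hGA.to_subtype
  obtain ⟨N, ⟨e⟩⟩ := Finite.exists_equiv_fin GA
  let code : Option tm.Λ × tm.σ × (∀ k, Option (tm.Γ k)) → ℕ :=
    fun a => if ha : a ∈ GA then (e ⟨a, ha⟩ : ℕ) else 0
  have code_lt : ∀ a, a ∈ GA → code a < N := by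
    intro a ha
    simp only [code, dif_pos ha]
    exact (e ⟨a, ha⟩).2
  have code_inj : ∀ a b, a ∈ GA → b ∈ GA → code a = code b → a = b := by
    intro a b ha hb hab
    simp only [code, dif_pos ha, dif_pos hb] at hab
    exact congrArg Subtype.val (e.injective (Fin.ext hab))
  let δ : ℕ → List ℕ → ℕ := fun m w =>
    if hh : ∃ p : TM2.Cfg tm.Γ tm.Λ tm.σ × ℕ, Good Sy p.1.stk ∧ min p.2 c = m ∧
      (posL c p.2).map (fun i => code (rowOf p.1 i)) = w
    then code (rowOf (stepT tm.m hh.choose.1) hh.choose.2) else 0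
  have hN : 0 < N := by
    refine lt_of_le_of_lt (Nat.zero_le _) (code_lt (none, tm.initialState, fun _ => none) ?_)
    intro k a h
    simp at h
  refine ⟨Sy, N, c, δ, code, fun a => Or.inl ⟨a, rfl⟩, fun cfg h => stepT_good tm.m hpush cfg h,
    code_lt, fun a ha b hb h => code_inj a b ha hb h, ?_, ?_⟩
  · intro m w
    simp only [δ]
    split
    · rename_i hh
      exact code_lt _ (rowOf_good (stepT_good tm.m hpush _ hh.choose_spec.1) _)
    · exact hN
  · intro cfg hcfg i
    have hh : ∃ p : TM2.Cfg tm.Γ tm.Λ tm.σ × ℕ, Good Sy p.1.stk ∧ min p.2 c = min i c ∧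
      (posL c p.2).map (fun i => code (rowOf p.1 i)) =
        (posL c i).map fun i => code (rowOf cfg i) := ⟨(cfg, i), hcfg, rfl, rfl⟩
    simp only [δ]
    rw [dif_pos hh]
    obtain ⟨h1, h2, h3⟩ := hh.choose_spec
    congr 1
    refine (row_local tm.m hc h2 ?_).symm
    have hlen : (posL c hh.choose.2).length = (posL c i).length := by simp [posL]
    refine List.ext_getElem (by simpa using hlen) ?_
    intro j hj hj'
    rw [List.getElem_map, List.getElem_map]
    refine code_inj _ _ (rowOf_good h1 _) (rowOf_good hcfg _) ?_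
    have h4 : ((posL c hh.choose.2).map (fun i => code (rowOf hh.choose.1 i)))[j]? =
        ((posL c i).map fun i => code (rowOf cfg i))[j]? := by rw [h3]
    rw [List.length_map] at hj hj'
    rw [List.getElem?_map, List.getElem?_map, List.getElem?_eq_getElem hj,
      List.getElem?_eq_getElem hj'] at h4
    simpa using h4

/-- the next row, of length `B + 1` -/
def nextRow (c : ℕ) (δ : ℕ → List ℕ → ℕ) (B : ℕ) (r : ℕ → ℕ) (i : ℕ) : ℕ :=
  δ (min i c) ((posL c i).map fun j => r (min j B))

/-- the bits of a row -/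
def bits (K : ℕ) (r : ℕ → ℕ) (j : ℕ) : Bool := decide (r (j / K) = j % K)

/-- the initial row -/
def row0 (sym : Bool → ℕ) (blank : ℕ) (w : List Bool) (i : ℕ) : ℕ := (w.map sym).getD i blank

/-- pigeonhole principle for the iterates of a map -/
lemma iterate_eq_of_card {R X : Type*} [Fintype X] (N : R → R) (E : R → X) (r : R)
    (hE : ∀ i j, E (N^[i] r) = E (N^[j] r) → N^[i] r = N^[j] r) {t : ℕ}
    (ht : N (N^[t] r) = N^[t] r) : N^[Fintype.card X] r = N^[t] r := by
  classical
  have hex : ∃ t, N (N^[t] r) = N^[t] r := ⟨t, ht⟩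
  have h0 : N (N^[Nat.find hex] r) = N^[Nat.find hex] r := Nat.find_spec hex
  have hmin : ∀ s < Nat.find hex, ¬ N (N^[s] r) = N^[s] r := fun s hs => Nat.find_min hex hs
  set t₀ := Nat.find hex with ht₀
  have hfix : ∀ n, N^[n + t₀] r = N^[t₀] r := by
    intro n
    induction n with
    | zero => rw [Nat.zero_add]
    | succ n ih => rw [Nat.succ_add, Function.iterate_succ_apply', ih, h0]
  have hinj : Function.Injective fun i : Fin (t₀ + 1) => E (N^[(i : ℕ)] r) := by
    have key : ∀ i j : ℕ, i < j → j ≤ t₀ → N^[i] r ≠ N^[j] r := by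
      intro i j hij hj h
      refine hmin (t₀ - (j - i)) (by omega) ?_
      have e1 : N^[t₀ - (j - i)] r = N^[t₀] r := by
        have e2 : t₀ - (j - i) = (t₀ - j) + i := by omega
        have e3 : t₀ = (t₀ - j) + j := by omega
        rw [e2, Function.iterate_add_apply, h, ← Function.iterate_add_apply, ← e3]
      rw [e1, h0]
    intro i j h
    have h' := hE _ _ h
    rcases lt_trichotomy (i : ℕ) (j : ℕ) with h1 | h1 | h1
    · exact absurd h' (key _ _ h1 (by omega))
    · exact Fin.ext h1
    · exact absurd h'.symm (key _ _ h1 (by omega))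
  have hcard : t₀ + 1 ≤ Fintype.card X := by
    simpa using Fintype.card_le_of_injective _ hinj
  have htt : N^[t] r = N^[t₀] r := by
    have h1 : t₀ ≤ t := by
      by_contra h1
      exact hmin t (by omega) ht
    have := hfix (t - t₀)
    rwa [Nat.sub_add_cancel h1] at this
  rw [htt]
  have := hfix (Fintype.card X - t₀)
  rwa [Nat.sub_add_cancel (by omega)] at this

lemma reaches_iterate {τ : Type*} (f : τ → Option τ) (n : ℕ) : ∀ a : τ,
    StateTransition.Reaches f a ((fun c => (f c).getD c)^[n] a) := by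
  induction n with
  | zero => exact fun a => Relation.ReflTransGen.refl
  | succ n ih =>
    intro a
    rw [Function.iterate_succ_apply]
    rcases h : f a with _ | b
    · simp only [Option.getD_none]
      exact ih a
    · simp only [Option.getD_some]
      exact Relation.ReflTransGen.head h (ih b)

open Classical in
/-- languages in PSPACE in terms of local rules -/
theorem exists_rows {L : Set (List Bool)} (hL : L ∈ PSPACE) :
    ∃ (K c : ℕ) (δ : ℕ → List ℕ → ℕ) (sym : Bool → ℕ) (blank : ℕ) (acc : ℕ → Bool)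
      (p : Polynomial ℕ), (∀ m w, δ m w < K) ∧ (∀ b, sym b < K) ∧ blank < K ∧
      ∀ (w : List Bool) (B : ℕ), p.eval w.length ≤ B →
        (w ∈ L ↔ acc ((nextRow c δ B)^[2 ^ ((B + 1) * K)] (row0 sym blank w) 0) = true) := by
  obtain ⟨h, p, hp⟩ := hL
  let tm := h.tm
  obtain ⟨Sy, K, c, δ, code, hsy, hgood, code_lt, code_inj, δ_lt, hloc⟩ := exists_rule tm
  have cell_good : ∀ o, cell0 tm o ∈ goodCell (Λ := tm.Λ) (σ := tm.σ) Sy := by
    intro o k a ha
    by_cases hk : k = tm.k₀
    · subst hk
      exact hsy a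
    · simp only [cell0] at ha
      rw [Function.update_of_ne hk] at ha
      simp at ha
  let acc : ℕ → Bool := fun a => decide (∃ z ∈ goodCell (Λ := tm.Λ) (σ := tm.σ) Sy,
    code z = a ∧ z.2.2 tm.k₁ = some (h.outputAlphabet.invFun true))
  refine ⟨K, c, δ, fun b => code (cell0 tm (some (h.inputAlphabet.invFun b))),
    code (cell0 tm none), acc, p, δ_lt, fun b => code_lt _ (cell_good _),
    code_lt _ (cell_good _), ?_⟩
  intro w B hB
  have hK : 0 < K := lt_of_le_of_lt (Nat.zero_le _) (code_lt _ (cell_good none))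
  let s : List (tm.Γ tm.k₀) := w.map h.inputAlphabet.invFun
  let cfg : TM2.Cfg tm.Γ tm.Λ tm.σ := initList tm s
  have hgood0 : Good Sy cfg.stk := by
    intro k a ha
    by_cases hk : k = tm.k₀
    · subst hk
      exact hsy a
    · have h5 : cfg.stk k = [] := by
        show (initList tm s : TM2.Cfg tm.Γ tm.Λ tm.σ).stk k = []
        unfold initList
        simp only
        rw [dif_neg hk]
      rw [h5] at ha
      simp at ha
  -- the configurations
  let C : ℕ → TM2.Cfg tm.Γ tm.Λ tm.σ := fun t => (stepT tm.m)^[t] cfg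
  have hCgood : ∀ t, Good Sy (C t).stk := by
    intro t
    induction t with
    | zero => exact hgood0
    | succ t ih =>
      show Good Sy ((stepT tm.m)^[t + 1] cfg).stk
      rw [Function.iterate_succ_apply']
      exact hgood _ ih
  have hCstk : ∀ t k, ((C t).stk k).length ≤ B := fun t k =>
    (hp w (C t) (reaches_iterate tm.step t cfg) k).trans hB
  -- the rows
  let r : ℕ → ℕ → ℕ := fun t i => code (rowOf (C t) i)
  have hclamp : ∀ t i, r t (min i B) = r t i := by
    intro t i
    rcases le_total i B with hi | hi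
    · rw [min_eq_left hi]
    · rw [min_eq_right hi]
      show code (rowOf (C t) B) = code (rowOf (C t) i)
      congr 1
      unfold rowOf
      simp only [Prod.mk.injEq, true_and]
      funext k
      have := hCstk t k
      rw [List.getElem?_eq_none this, List.getElem?_eq_none (this.trans hi)]
  have hr0 : row0 (fun b => code (cell0 tm (some (h.inputAlphabet.invFun b))))
      (code (cell0 tm none)) w = r 0 := by
    funext i
    show _ = code (rowOf (initList tm s : TM2.Cfg tm.Γ tm.Λ tm.σ) i)
    rw [rowOf_initList, row0, List.getD_eq_getElem?_getD, List.getElem?_map]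
    simp only [s]
    rw [List.getElem?_map]
    rcases w[i]? with _ | o <;> rfl
  have hrn : ∀ t, (nextRow c δ B)^[t] (r 0) = r t := by
    intro t
    induction t with
    | zero => rfl
    | succ t ih =>
      rw [Function.iterate_succ_apply', ih]
      funext i
      show δ (min i c) ((posL c i).map fun j => r t (min j B)) = _
      simp only [hclamp]
      show _ = code (rowOf ((stepT tm.m)^[t + 1] cfg) i)
      rw [Function.iterate_succ_apply']
      exact (hloc _ (hCgood t) i).symm
  have hrlt : ∀ t i, r t i < K := fun t i => code_lt _ (rowOf_good (hCgood t) i)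
  -- the machine halts
  let out : List (tm.Γ tm.k₁) :=
    (Computability.encodeBool (decide (w ∈ L))).map h.outputAlphabet.invFun
  have o := h.outputsFun w
  have hrun : C o.steps = (haltList tm out : TM2.Cfg tm.Γ tm.Λ tm.σ) := by
    have h9 := o.evals_in_steps
    exact iterate_getD _ _ _ _ h9
  have hfix : nextRow c δ B (r o.steps) = r o.steps := by
    have h1 : nextRow c δ B (r o.steps) = r (o.steps + 1) := by
      have h1' := hrn (o.steps + 1)
      rw [Function.iterate_succ_apply', hrn] at h1'
      exact h1'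
    rw [h1]
    have h2 : C (o.steps + 1) = C o.steps := by
      show (stepT tm.m)^[o.steps + 1] cfg = (stepT tm.m)^[o.steps] cfg
      rw [Function.iterate_succ_apply']
      show stepT tm.m (C o.steps) = C o.steps
      rw [hrun]
      rfl
    funext i
    show code (rowOf (C (o.steps + 1)) i) = code (rowOf (C o.steps) i)
    rw [h2]
  have hpig := iterate_eq_of_card (X := Fin ((B + 1) * K) → Bool) (nextRow c δ B)
    (fun r j => bits K r j) (r 0) (t := o.steps) (by
      intro i j hij
      rw [hrn, hrn] at hij ⊢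
      funext n
      rw [← hclamp i n, ← hclamp j n]
      have hn : min n B ≤ B := min_le_right _ _
      have h1 : min n B * K + r i (min n B) < (B + 1) * K := by
        have h2 := hrlt i (min n B)
        have h3 : min n B * K ≤ B * K := Nat.mul_le_mul_right _ hn
        rw [Nat.add_mul, Nat.one_mul]
        omega
      have h4 := congrFun hij ⟨_, h1⟩
      simp only [bits] at h4
      have h5 : (min n B * K + r i (min n B)) / K = min n B := by
        rw [Nat.add_comm, Nat.add_mul_div_right _ _ hK, Nat.div_eq_of_lt (hrlt _ _), Nat.zero_add]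
      have h6 : (min n B * K + r i (min n B)) % K = r i (min n B) := by
        rw [Nat.add_comm, Nat.add_mul_mod_self_right, Nat.mod_eq_of_lt (hrlt _ _)]
      rw [h5, h6] at h4
      have h7 : r j (min n B) = r i (min n B) := by simpa using h4
      exact h7.symm) (by rw [hrn]; exact hfix)
  rw [hrn o.steps] at hpig
  rw [Fintype.card_fun, Fintype.card_bool, Fintype.card_fin] at hpig
  rw [hr0, hpig]
  have hval : (rowOf (C o.steps) 0).2.2 tm.k₁ =
      some (h.outputAlphabet.invFun (decide (w ∈ L))) := by
    show ((C o.steps).stk tm.k₁)[0]? = _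
    rw [hrun, stk_haltList]
    rfl
  show _ ↔ acc (code (rowOf (C o.steps) 0)) = true
  simp only [acc, decide_eq_true_eq]
  constructor
  · intro hw
    exact ⟨_, rowOf_good (hCgood _) 0, rfl, by rw [hval, decide_eq_true hw]⟩
  · rintro ⟨z, hz, hz', hz''⟩
    have := code_inj hz (rowOf_good (hCgood _) 0) hz'
    subst this
    rw [hval, Option.some_inj] at hz''
    exact of_decide_eq_true (h.outputAlphabet.symm.injective hz'')

end Pool.Agent.Lib.PSpace
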